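import Pool.Agent.U199.ZS.I

/-!
# Weak approximation on K3 double covers of `ℙ¹ × ℙ¹`: real components and `p`-adic points

Let `K` be a number field and let `F` be a form of bidegree `(4, 4)` over `K` such that the curve
`F = 0` in `ℙ¹ × ℙ¹` is smooth. For `e ∈ Kˣ` let `X_e : w² = e F` be the corresponding K3 surface, a
double cover of `ℙ¹ × ℙ¹`; we work in the four standard affine charts. We consider a real place of `K`
and a finite family of `p`-adic places of degree one, that is, of embeddings `σ_v` of `K` into fields
`ℚ_[p v]`; for `K = ℚ` these are all the finite families of places which contain the real place.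

The Brauer–Manin set only depends on the connected components at the real places. So if it is the only
obstruction to weak approximation, then the closure of `X_e(K)` in `X_e(ℝ) × ∏ X_e(ℚ_[p v])` is a union
of sets `M × {y}`, where `M` is a connected component of `X_e(ℝ)`, and it is open. We show that there
are a finite set `T` of points and finitely many lines `E` of the two rulings of `ℙ¹ × ℙ¹`, which depend
only on `F`, such that this holds for ALL quadratic twists `X_e` and ALL these families of places, up to
points over `T` and `E`: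

(1) Let `Z` be the closure of the set of the `K`-points of `X_e` with `w ≠ 0` outside `T` and `E`. If
`(x, y) ∈ Z` and `M` is a connected set of real points with `x ∈ M`, then `M × {y} ⊆ Z`. Moreover `Z`
contains all points `(x, y)` of the closure of the set of all `K`-points for which `x` does not lie on
the branch curve or over `T` and `E`. For example: if `P` is a `K`-point with `w ≠ 0` outside `T` and
`E`, then every real point in the component of `P` is a limit of `K`-points which tend to `P` in all
the `X_e(ℚ_[p v])`.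

(2) If the primes `p v` are distinct, then every `K`-point `P` with `w ≠ 0` outside `T` and `E` has a
neighbourhood `U` in `∏ X_e(ℚ_[p v])`, such that `Z` contains `M × U` for all connected sets `M` of
real points which contain `P`.

(3) Nothing is assumed about the `K`-points now. Let the primes `p v` be distinct, let `R` be a real
point and let `S_v` be `p`-adic points of `X : w² = F` which do not lie on the branch curve. Then in every
neighbourhood of `(S_v)` there is a nonempty open set `U` of `∏ X(ℚ_[p v])` and there is a quadratic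
extension `L` of `K`, in which all these places (and the real one) split, such that the closure of
`X(L)` contains `M × U` for every connected set `M` of real points which contains `R`.

Proof. Let `P` be a rational point of infinite order in the direction `i` (that is, the class `D` of
`P - ι P` in the Jacobian of the curve `w² = e F` of genus one through `P` in this direction). For
suitable `N > 0` all multiples of `N D` are close to zero in the `ℚ_[p v]`, and they are dense in the
identity component of the real points. So one can move in the real interval around `P` on which `e F` is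
positive without moving at the finite places. To cross the branch curve one has to change the sign of the
real coordinate `w` and not of the `p`-adic ones: this is possible along the lines on which `e F` has a
real zero, as then `D` lies in the identity component (it is twice a real point). Outside finitely many
points the other direction is of infinite order (`Pool.Agent.Q35.TT`), and so the set of real points which
can be reached is open and closed. (2) uses `MP_ed3816_nt.OpenAtAlmostAllPoints`, and (3) uses the library
of `MP_ed3816_nt.QuadraticApproximation`, by which weak approximation holds over quadratic extensions near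
some `L`-point.
-/

set_option autoImplicit false

namespace Pool.Agent.Results.MP_ed3816_nt.DoubleCoverComponents

open MvPolynomial

/-- `F` is a form of bidegree `(4, 4)` in the coordinates `(j, 0)`, `(j, 1)` of the two factors. -/
def IsForm {K : Type} [Field K] (F : MvPolynomial (Fin 2 × Fin 2) K) : Prop :=
  ∀ m ∈ F.support, ∀ j, m (j, 0) + m (j, 1) = 4

/-- The curve `F = 0` in `ℙ¹ × ℙ¹` is smooth. -/
def Smooth {K : Type} [Field K] (F : MvPolynomial (Fin 2 × Fin 2) K) : Prop :=
  ∀ x : Fin 2 × Fin 2 → AlgebraicClosure K, (∀ j, ∃ b, x (j, b) ≠ 0) → ∃ p, aeval x (pderiv p F) ≠ 0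

/-- The equation in the affine chart in which the coordinates `(j, ε j)` are equal to one. -/
noncomputable def chart {K : Type} [Field K] (F : MvPolynomial (Fin 2 × Fin 2) K)
    (ε : Fin 2 → Fin 2) : MvPolynomial (Fin 2) K :=
  aeval (fun p : Fin 2 × Fin 2 => if p.2 = ε p.1 then 1 else X p.1) F

/-- The point `(x, w)` lies on the double cover `w² = f(x)`. -/
def OnCover {F : Type} [Field F] (f : MvPolynomial (Fin 2) F) (P : (Fin 2 → F) × F) : Prop :=
  P.2 ^ 2 = eval P.1 f

/-- The image of a point under an embedding of fields. -/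
def image {K F : Type} [Field K] [Field F] (φ : K →+* F) (P : (Fin 2 → K) × K) : (Fin 2 → F) × F :=
  (fun j => φ (P.1 j), φ P.2)

/-- The `K`-points of `w² = f(x)` with `w ≠ 0`, outside the points in `T` and the lines `x_j = c`,
`c ∈ E j`. -/
def outside {K : Type} [Field K] (f : MvPolynomial (Fin 2) K) (T : Set (Fin 2 → K))
    (E : Fin 2 → Set K) : Set ((Fin 2 → K) × K) :=
  {P | OnCover f P ∧ P.2 ≠ 0 ∧ P.1 ∉ T ∧ ∀ j, P.1 j ∉ E j}

/-- The closure of a set of `K`-points in the product of the set of the real points and of the sets of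
the `ℚ_[p v]`-points. -/
def Closure {K : Type} [Field K] {ι : Type} {p : ι → ℕ} [∀ v, Fact (p v).Prime] (τ : K →+* ℝ)
    (σ : ∀ v, K →+* ℚ_[p v]) (R : Set ((Fin 2 → K) × K)) :
    Set (((Fin 2 → ℝ) × ℝ) × ∀ v, (Fin 2 → ℚ_[p v]) × ℚ_[p v]) :=
  closure {S | ∃ P ∈ R, S = (image τ P, fun v => image (σ v) P)}

/-- `M` is a connected (or empty) set of real points of `w² = g(x)`. -/
def ConnectedReal (g : MvPolynomial (Fin 2) ℝ) (M : Set ((Fin 2 → ℝ) × ℝ)) : Prop :=
  IsPreconnected M ∧ ∀ S ∈ M, OnCover g S

/-- **Real components and `p`-adic points.** -/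
theorem result (K : Type) [Field K] [NumberField K] (F : MvPolynomial (Fin 2 × Fin 2) K)
    (hF : IsForm F) (hs : Smooth F) (ε : Fin 2 → Fin 2) :
    (∃ (T : Set (Fin 2 → K)) (E : Fin 2 → Set K), T.Finite ∧ (∀ j, (E j).Finite) ∧
      -- all twists and all families of places
      ∀ e : K, e ≠ 0 → ∀ (τ : K →+* ℝ) (ι : Type) [Finite ι] (p : ι → ℕ) [∀ v, Fact (p v).Prime]
        (σ : ∀ v, K →+* ℚ_[p v]),
        -- (1) the closure is a union of sets (connected component) × {y}
        (∀ x y, (x, y) ∈ Closure τ σ (outside (C e * chart F ε) T E) →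
          ∀ M, ConnectedReal (map τ (C e * chart F ε)) M → x ∈ M →
            ∀ x' ∈ M, (x', y) ∈ Closure τ σ (outside (C e * chart F ε) T E)) ∧
        (∀ x y, (x, y) ∈ Closure τ σ {P | OnCover (C e * chart F ε) P} → x.2 ≠ 0 →
          (∀ t ∈ T, x.1 ≠ fun k => τ (t k)) → (∀ j, ∀ c ∈ E j, x.1 j ≠ τ c) →
            (x, y) ∈ Closure τ σ (outside (C e * chart F ε) T E)) ∧
        -- (2) near a rational point it contains the product of the component and a neighbourhood
        (Nonempty ι → Function.Injective p → ∀ P ∈ outside (C e * chart F ε) T E,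
          ∃ U ∈ nhds (fun v => image (σ v) P),
            ∀ M, ConnectedReal (map τ (C e * chart F ε)) M → image τ P ∈ M →
              ∀ x ∈ M, ∀ y ∈ U, (∀ v, OnCover (map (σ v) (C e * chart F ε)) (y v)) →
                (x, y) ∈ Closure τ σ (outside (C e * chart F ε) T E))) ∧
    -- (3) quadratic extensions
    ∀ (τ : K →+* ℝ) (ι : Type) [Finite ι] [Nonempty ι] (p : ι → ℕ) [∀ v, Fact (p v).Prime]
      (σ : ∀ v, K →+* ℚ_[p v]), Function.Injective p →
      ∀ R : (Fin 2 → ℝ) × ℝ, OnCover (map τ (chart F ε)) R → R.2 ≠ 0 →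
      ∀ S : ∀ v, (Fin 2 → ℚ_[p v]) × ℚ_[p v], (∀ v, OnCover (map (σ v) (chart F ε)) (S v)) →
        (∀ v, (S v).2 ≠ 0) → ∀ η : ℝ, 0 < η →
      ∃ (L : Type) (_ : Field L) (_ : NumberField L) (_ : Algebra K L) (σ' : ∀ v, L →+* ℚ_[p v])
        (τ' : L →+* ℝ) (P : (Fin 2 → L) × L) (U : Set (∀ v, (Fin 2 → ℚ_[p v]) × ℚ_[p v])),
        Module.finrank K L = 2 ∧ (∀ v, (σ' v).comp (algebraMap K L) = σ v) ∧
        τ'.comp (algebraMap K L) = τ ∧ OnCover (map (algebraMap K L) (chart F ε)) P ∧
        (∀ v, dist (S v) (image (σ' v) P) < η) ∧ dist R (image τ' P) < η ∧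
        U ∈ nhds (fun v => image (σ' v) P) ∧
        ∀ M, ConnectedReal (map τ (chart F ε)) M → R ∈ M →
          ∀ x ∈ M, ∀ y ∈ U, (∀ v, OnCover (map (σ v) (chart F ε)) (y v)) →
            (x, y) ∈ Closure τ' σ' {P | OnCover (map (algebraMap K L) (chart F ε)) P} := by
  obtain ⟨hd, hsm, -⟩ := Pool.Agent.Q182.TT.CHF.chf K 2 F hF ε
  have hsm := hsm hs
  refine ⟨?_, ?_⟩
  · obtain ⟨T₁, E₁, hg⟩ := Pool.Agent.U199.ZS.exists_good (f := Pool.Agent.Q35.TT.ch F ε) hd hsm
    obtain ⟨T₂, E₂, hT₂, hE₂, h2⟩ := Pool.Agent.Q35.TT.opn2 K (Pool.Agent.Q35.TT.ch F ε) hd hsm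
    have hg' := hg.mono hT₂ hE₂
    refine ⟨T₁ ∪ T₂, fun j => E₁ j ∪ E₂ j, hg'.1, hg'.2.1, ?_⟩
    intro e he τ ι _ p _ σ
    have part1 : ∀ x y, (x, y) ∈ Closure τ σ (outside (C e * chart F ε) (T₁ ∪ T₂)
        fun j => E₁ j ∪ E₂ j) → ∀ M, ConnectedReal (map τ (C e * chart F ε)) M → x ∈ M →
          ∀ x' ∈ M, (x', y) ∈ Closure τ σ (outside (C e * chart F ε) (T₁ ∪ T₂)
            fun j => E₁ j ∪ E₂ j) := fun x y hxy M hM hx =>
      Pool.Agent.U199.ZS.good_comp τ σ hd hsm hg' he hxy hM.1 hM.2 hx
    refine ⟨part1, fun x y hxy hx hxT hxE =>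
      Pool.Agent.U199.ZS.near_cl τ σ hg'.1 hg'.2.1 hx hxT hxE hxy, ?_⟩
    intro _ hp P hP
    obtain ⟨V, hV, hV'⟩ := (h2 e he P.1 P.2 hP.2.1 hP.1 (fun h => hP.2.2.1 (Or.inr h))
      (fun j h => hP.2.2.2 j (Or.inr h)) ι p hp σ).2 τ
    refine ⟨{y | (image τ P, y) ∈ V}, ?_, ?_⟩
    · have hc : Continuous fun y : ∀ v, (Fin 2 → ℚ_[p v]) × ℚ_[p v] => (image τ P, y) :=
        continuous_const.prodMk continuous_id
      exact hc.continuousAt.preimage_mem_nhds hV
    · intro M hM hPM x hx y hy hyon
      refine part1 (image τ P) y ?_ M hM hPM x hx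
      refine Pool.Agent.U199.ZS.near_cl τ σ hg'.1 hg'.2.1 ((map_ne_zero τ).2 hP.2.1) ?_ ?_
        (hV' _ hy (hM.2 _ hPM) hyon)
      · intro t ht h
        apply hP.2.2.1
        have : P.1 = t := by
          funext k
          exact τ.injective (congrFun h k)
        rw [this]
        exact ht
      · intro j c hc h
        apply hP.2.2.2 j
        have : P.1 j = c := τ.injective h
        rw [this]
        exact hc
  · intro τ ι _ _ p _ σ hp R hR hR0 S hS hS0 η hη
    obtain ⟨L, iL, iN, iA, σ', τ', P, U, h3, h4, h5, h6, h7, h8, h9, h10⟩ :=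
      Pool.Agent.U199.ZS.quad_comp K (Pool.Agent.Q35.TT.ch F ε) hd hsm ι p hp σ τ R hR hR0 S hS
        hS0 hη
    exact ⟨L, iL, iN, iA, σ', τ', P, U, h3, h4, h5, h6, h7, h8, h9, fun M hM hRM =>
      h10 M hM.1 hM.2 hRM⟩

end Pool.Agent.Results.MP_ed3816_nt.DoubleCoverComponents
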