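import Pool.Agent.Q35.TT.All1

/-!
# K3 surfaces: the closure of the rational points is open at all but finitely many rational points and
finitely many lines, for all quadratic twists

Let `K` be a number field and let `F` be a form of bidegree `(4, 4)` over `K` such that the curve
`F = 0` in `ℙ¹ × ℙ¹` is smooth. For `e ∈ Kˣ` let `X_e : w² = e F` be the corresponding K3 surface, a
double cover of `ℙ¹ × ℙ¹`.

We consider finite nonempty sets of `p`-adic places of degree one (embeddings of `K` into `ℚ_p`) over
different primes `p`, with or without a real place; for `K = ℚ` these are all the finite sets of places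
which contain a finite place.

There are a finite set `T` of `K`-points of `ℙ¹ × ℙ¹` and finitely many lines of the two rulings, which
depend only on `F`, such that for ALL quadratic twists `X_e` and ALL these sets of places the closure of
`X_e(K)` in the product of the `X_e(K_v)` is a neighbourhood of every `K`-point of `X_e` which does not
lie on the branch curve, over `T` or over one of the lines.

So the only points at which weak approximation could fail locally lie on a proper closed subset, the
same for all twists and places. In the starting result `MP_ed3816_nt.OpenAwayFromTorsion` this is proved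
for the points at which the differences of the two points of the fibres have infinite order and some
further conditions are satisfied; here the exceptional set is described: only finitely many `K`-points
are torsion in both fibrations in curves of genus one (`Pool.Agent.Q35.TT.tan2`).
-/

set_option autoImplicit false

namespace Pool.Agent.Results.MP_ed3816_nt.OpenAtAlmostAllPoints

open MvPolynomial

/-- `F` is a form of bidegree `(4, 4)` in the coordinates `(j, 0)`, `(j, 1)` of the two factors. -/
def IsForm {K : Type} [Field K] (F : MvPolynomial (Fin 2 × Fin 2) K) : Prop :=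
  ∀ m ∈ F.support, ∀ j, m (j, 0) + m (j, 1) = 4

/-- The curve `F = 0` in `ℙ¹ × ℙ¹` is smooth. -/
def Smooth {K : Type} [Field K] (F : MvPolynomial (Fin 2 × Fin 2) K) : Prop :=
  ∀ x : Fin 2 × Fin 2 → AlgebraicClosure K, (∀ j, ∃ b, x (j, b) ≠ 0) → ∃ p, aeval x (pderiv p F) ≠ 0

/-- The equation in the affine chart in which the coordinates `(j, ε j)` are equal to one. -/
noncomputable def chart {K : Type} [Field K] (F : MvPolynomial (Fin 2 × Fin 2) K)
    (ε : Fin 2 → Fin 2) : MvPolynomial (Fin 2) K :=
  aeval (fun p : Fin 2 × Fin 2 => if p.2 = ε p.1 then 1 else X p.1) F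

/-- The point `(x, w)` lies on the double cover `w² = f(x)`. -/
def OnCover {F : Type} [Field F] (f : MvPolynomial (Fin 2) F) (P : (Fin 2 → F) × F) : Prop :=
  P.2 ^ 2 = eval P.1 f

/-- The image of a point under an embedding of fields. -/
def image {K F : Type} [Field K] [Field F] (φ : K →+* F) (P : (Fin 2 → K) × K) : (Fin 2 → F) × F :=
  (fun j => φ (P.1 j), φ P.2)

/-- The closure of the `K`-points in the product of the sets of the `ℚ_[p i]`-points. -/
def Closure {K : Type} [Field K] (f : MvPolynomial (Fin 2) K) {ι : Type} {p : ι → ℕ}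
    [∀ i, Fact (p i).Prime] (σ : ∀ i, K →+* ℚ_[p i]) : Set (∀ i, (Fin 2 → ℚ_[p i]) × ℚ_[p i]) :=
  closure {S | ∃ P, OnCover f P ∧ S = fun i => image (σ i) P}

/-- The closure of the `K`-points in the product of the set of the real points and of the sets of
the `ℚ_[p i]`-points. -/
def ClosureReal {K : Type} [Field K] (f : MvPolynomial (Fin 2) K) {ι : Type} {p : ι → ℕ}
    [∀ i, Fact (p i).Prime] (σ : ∀ i, K →+* ℚ_[p i]) (τ : K →+* ℝ) :
    Set (((Fin 2 → ℝ) × ℝ) × ∀ i, (Fin 2 → ℚ_[p i]) × ℚ_[p i]) :=
  closure {S | ∃ P, OnCover f P ∧ S = (image τ P, fun i => image (σ i) P)}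

/-- The closure is a neighbourhood of the `K`-point `P` in the product of the sets of the local
points. -/
def OpenAt {K : Type} [Field K] (f : MvPolynomial (Fin 2) K) {ι : Type} {p : ι → ℕ}
    [∀ i, Fact (p i).Prime] (σ : ∀ i, K →+* ℚ_[p i]) (P : (Fin 2 → K) × K) : Prop :=
  ∃ U ∈ nhds (fun v => image (σ v) P), ∀ S ∈ U, (∀ v, OnCover (map (σ v) f) (S v)) →
    S ∈ Closure f σ

/-- The same with a real place. -/
def OpenAtReal {K : Type} [Field K] (f : MvPolynomial (Fin 2) K) {ι : Type} {p : ι → ℕ}
    [∀ i, Fact (p i).Prime] (σ : ∀ i, K →+* ℚ_[p i]) (τ : K →+* ℝ) (P : (Fin 2 → K) × K) : Prop :=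
  ∃ U ∈ nhds (image τ P, fun v => image (σ v) P), ∀ S ∈ U, OnCover (map τ f) S.1 →
    (∀ v, OnCover (map (σ v) f) (S.2 v)) → S ∈ ClosureReal f σ τ

/-- **The closure of the set of the `K`-points of K3 double covers of `ℙ¹ × ℙ¹` is open at almost all
`K`-points.** -/
theorem result (K : Type) [Field K] [NumberField K] (F : MvPolynomial (Fin 2 × Fin 2) K)
    (hF : IsForm F) (hs : Smooth F) (ε : Fin 2 → Fin 2) :
    ∃ (T : Set (Fin 2 → K)) (E : Fin 2 → Set K), T.Finite ∧ (∀ j, (E j).Finite) ∧
      -- all quadratic twists and all points off the branch curve, `T` and the lines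
      ∀ e : K, e ≠ 0 → ∀ (z : Fin 2 → K) (w : K), w ≠ 0 → OnCover (C e * chart F ε) (z, w) →
        z ∉ T → (∀ j, z j ∉ E j) →
        -- all finite sets of places
        ∀ (ι : Type) [Finite ι] [Nonempty ι] (p : ι → ℕ) [∀ v, Fact (p v).Prime],
          Function.Injective p → ∀ σ : ∀ v, K →+* ℚ_[p v],
            OpenAt (C e * chart F ε) σ (z, w) ∧
            ∀ τ : K →+* ℝ, OpenAtReal (C e * chart F ε) σ τ (z, w) := by
  obtain ⟨h1, h2, -⟩ := Pool.Agent.Q182.TT.CHF.chf K 2 F hF ε
  exact Pool.Agent.Q35.TT.opn2 K (Pool.Agent.Q35.TT.ch F ε) h1 (h2 hs)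

end Pool.Agent.Results.MP_ed3816_nt.OpenAtAlmostAllPoints
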