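import Pool.Agent.U899.QA.Thin

/-!
# K3 surfaces: local points are approximated over quadratic extensions by rational points outside
given thin sets

Let `K` be a number field, let `F` be a form of bidegree `(4, 4)` over `K` such that the curve
`F = 0` in `ℙ¹ × ℙ¹` is smooth, and let `X : w² = F` be the corresponding K3 surface, a double cover
of `ℙ¹ × ℙ¹`. Nothing is assumed about the `K`-points of `X`; there may be none.

Let finitely many Kummer covers `u^(m_i) = h_i` of `X` be given, where `m_i ≥ 2` and `h_i` is a
polynomial in the coordinates of the chart such that the curve `h_i = 0` has a smooth point off the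
branch curve (so that the cover is ramified over it). The points which lift to one of these covers
form a thin set.

Let `S` be a finite set of `p`-adic places of degree one (embeddings of `K` into `ℚ_p`) over different
primes `p`; for `K = ℚ` it is an arbitrary finite set of finite places. For ALL families of local
points of `X` at the places in `S` which do not lie on the branch curve, all neighbourhoods of the
family and all finite extensions `N` of `K`, there are a quadratic extension `L` of `K`, not contained in
`N`, in which the places of `S` split and an `L`-point `P` of `X` in the neighbourhood, such that the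
closure of the set of

    the `L`-points of `X` at which no `h_i` is an `m_i`-th power in `L`

in the product of the `X(L_w)`, `w` the chosen places over `S`, is a neighbourhood of `P`.

So near the given local points weak approximation holds over quadratic extensions with points which do
not belong to the thin set. There is no condition on the covers at the places of `S`: all local points
may lift there.

Proof. For each `i` there is a place of degree one over a prime `ℓ_i`, different from all the other
primes, at which there are local points of `X` which do not lift to the cover: near a zero of order one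
over `ℚ_ℓ` the values of `h_i` have all sufficiently large valuations. For a suitable point `z` over `K`,
near the given local points at the places of `S` and these points at the additional places, the closure
of the rational points of `X` over the quadratic extension `K(√F(z))`, for all the places
together, is a neighbourhood of the point `(z, √F(z))`.
-/

set_option autoImplicit false

namespace Pool.Agent.Results.MP_ed3816_nt.OutsideThinSets

open MvPolynomial

/-- `F` is a form of bidegree `(4, 4)` in the coordinates `(j, 0)`, `(j, 1)` of the two factors. -/
def IsForm {K : Type} [Field K] (F : MvPolynomial (Fin 2 × Fin 2) K) : Prop :=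
  ∀ m ∈ F.support, ∀ j, m (j, 0) + m (j, 1) = 4

/-- The curve `F = 0` in `ℙ¹ × ℙ¹` is smooth. -/
def Smooth {K : Type} [Field K] (F : MvPolynomial (Fin 2 × Fin 2) K) : Prop :=
  ∀ x : Fin 2 × Fin 2 → AlgebraicClosure K, (∀ j, ∃ b, x (j, b) ≠ 0) → ∃ p, aeval x (pderiv p F) ≠ 0

/-- The equation in the affine chart in which the coordinates `(j, ε j)` are equal to one. -/
noncomputable def chart {K : Type} [Field K] (F : MvPolynomial (Fin 2 × Fin 2) K)
    (ε : Fin 2 → Fin 2) : MvPolynomial (Fin 2) K :=
  aeval (fun p : Fin 2 × Fin 2 => if p.2 = ε p.1 then 1 else X p.1) F

/-- The point `(x, w)` lies on the double cover `w² = f(x)`. -/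
def OnCover {F : Type} [Field F] (f : MvPolynomial (Fin 2) F) (P : (Fin 2 → F) × F) : Prop :=
  P.2 ^ 2 = eval P.1 f

/-- The image of a point under an embedding of fields. -/
def image {K F : Type} [Field K] [Field F] (φ : K →+* F) (P : (Fin 2 → K) × K) : (Fin 2 → F) × F :=
  (fun j => φ (P.1 j), φ P.2)

/-- The closure, in the product of the sets of the `ℚ_[p v]`-points, of the set of the points of the
surface `w² = f(x)` which belong to `R` is a neighbourhood of `P`. -/
def OpenAlong {L : Type} [Field L] (f : MvPolynomial (Fin 2) L) (R : Set ((Fin 2 → L) × L))
    {ι : Type} {p : ι → ℕ} [∀ v, Fact (p v).Prime] (σ : ∀ v, L →+* ℚ_[p v])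
    (P : (Fin 2 → L) × L) : Prop :=
  ∃ U ∈ nhds (fun v => image (σ v) P), ∀ S ∈ U, (∀ v, OnCover (map (σ v) f) (S v)) →
    S ∈ closure {S | ∃ Q, OnCover f Q ∧ Q ∈ R ∧ S = fun v => image (σ v) Q}

/-- **Local points of K3 double covers of `ℙ¹ × ℙ¹` are limits of rational points over quadratic
extensions at which the closure of the set of the rational points outside a thin set is open.** -/
theorem result (K : Type) [Field K] [NumberField K] (F : MvPolynomial (Fin 2 × Fin 2) K)
    (hF : IsForm F) (hs : Smooth F) (ε : Fin 2 → Fin 2)
    -- a finite set of places
    (ι : Type) [Finite ι] (p : ι → ℕ) [∀ v, Fact (p v).Prime] (hp : Function.Injective p)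
    (σ : ∀ v, K →+* ℚ_[p v])
    -- local points off the branch curve
    (S : ∀ v, (Fin 2 → ℚ_[p v]) × ℚ_[p v]) (hS : ∀ v, OnCover (map (σ v) (chart F ε)) (S v))
    (hS0 : ∀ v, (S v).2 ≠ 0)
    -- the covers `u ^ m i = h i`
    (r : ℕ) (m : Fin (r + 1) → ℕ) (h : Fin (r + 1) → MvPolynomial (Fin 2) K)
    (hh : ∀ i, 2 ≤ m i ∧ ∃ x : Fin 2 → AlgebraicClosure K, aeval x (h i) = 0 ∧
      (∃ j, aeval x (pderiv j (h i)) ≠ 0) ∧ aeval x (chart F ε) ≠ 0)
    (N : Type) [Field N] [NumberField N] [Algebra K N] (η : ℝ) (hη : 0 < η) :
    ∃ (L : Type) (_ : Field L) (_ : NumberField L) (_ : Algebra K L) (σ' : ∀ v, L →+* ℚ_[p v])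
      (P : (Fin 2 → L) × L),
      -- `L` is quadratic, not contained in `N`, and the places split in `L`
      Module.finrank K L = 2 ∧ IsEmpty (L →ₐ[K] N) ∧ (∀ v, (σ' v).comp (algebraMap K L) = σ v) ∧
      -- `P` is an `L`-point near the given local points
      OnCover (map (algebraMap K L) (chart F ε)) P ∧ (∀ v, dist (S v) (image (σ' v) P) < η) ∧
      -- the closure of the set of the `L`-points which do not lift to the covers is a neighbourhood
      -- of `P`
      OpenAlong (map (algebraMap K L) (chart F ε))
        {Q | ∀ i, ¬ ∃ u : L, u ^ m i = eval Q.1 (map (algebraMap K L) (h i))} σ' P :=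
  Pool.Agent.U899.QA.kumA K F hF hs ε ι p hp σ S hS hS0 r m h hh N hη

end Pool.Agent.Results.MP_ed3816_nt.OutsideThinSets
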