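import Pool.Agent.U899.QA.Main

/-!
# K3 surfaces: local points are approximated over quadratic extensions by rational points at which
the closure of the rational points is open

Let `K` be a number field, let `F` be a form of bidegree `(4, 4)` over `K` such that the curve
`F = 0` in `ℙ¹ × ℙ¹` is smooth, and let `X : w² = F` be the corresponding K3 surface, a double cover
of `ℙ¹ × ℙ¹`. Nothing is assumed about the `K`-points of `X`; there may be none.

We consider finite nonempty sets `S` of `p`-adic places of degree one (embeddings of `K` into `ℚ_p`)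
over different primes `p`, with or without a real place; for `K = ℚ` these are all the finite sets of
places which contain a finite place.

For ALL families of local points of `X` at the places in `S` which do not lie on the branch curve, and
all neighbourhoods of the family, there are a quadratic extension `L` of `K` in which the places of `S`
split (they extend to embeddings of `L` into the same local fields) and an `L`-point `P` of `X` in the
neighbourhood, such that the closure of `X(L)` in the product of the `X(L_w)`, `w` the chosen places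
over `S`, is a neighbourhood of `P`.

So the family of local points is a limit of interior points of the closures of the sets `X(L)`, where
`L` runs through the quadratic extensions of `K`. The `L`-points near the given family which are
found first have no reason to avoid the finite exceptional sets of the theorem on the openness of the
closure of the rational points (`MP_ed3816_nt.OpenAtAlmostAllPoints`), as these sets depend on the
ground field; the proof gives one exceptional set over the algebraic closure which serves all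
extensions of degree at most two (`Pool.Agent.U899.QA.uopn`, for all degrees at most `D`).
-/

set_option autoImplicit false

namespace Pool.Agent.Results.MP_ed3816_nt.QuadraticApproximation

open MvPolynomial

/-- `F` is a form of bidegree `(4, 4)` in the coordinates `(j, 0)`, `(j, 1)` of the two factors. -/
def IsForm {K : Type} [Field K] (F : MvPolynomial (Fin 2 × Fin 2) K) : Prop :=
  ∀ m ∈ F.support, ∀ j, m (j, 0) + m (j, 1) = 4

/-- The curve `F = 0` in `ℙ¹ × ℙ¹` is smooth. -/
def Smooth {K : Type} [Field K] (F : MvPolynomial (Fin 2 × Fin 2) K) : Prop :=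
  ∀ x : Fin 2 × Fin 2 → AlgebraicClosure K, (∀ j, ∃ b, x (j, b) ≠ 0) → ∃ p, aeval x (pderiv p F) ≠ 0

/-- The equation in the affine chart in which the coordinates `(j, ε j)` are equal to one. -/
noncomputable def chart {K : Type} [Field K] (F : MvPolynomial (Fin 2 × Fin 2) K)
    (ε : Fin 2 → Fin 2) : MvPolynomial (Fin 2) K :=
  aeval (fun p : Fin 2 × Fin 2 => if p.2 = ε p.1 then 1 else X p.1) F

/-- The point `(x, w)` lies on the double cover `w² = f(x)`. -/
def OnCover {F : Type} [Field F] (f : MvPolynomial (Fin 2) F) (P : (Fin 2 → F) × F) : Prop :=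
  P.2 ^ 2 = eval P.1 f

/-- The image of a point under an embedding of fields. -/
def image {K F : Type} [Field K] [Field F] (φ : K →+* F) (P : (Fin 2 → K) × K) : (Fin 2 → F) × F :=
  (fun j => φ (P.1 j), φ P.2)

/-- The closure of the `K`-points in the product of the sets of the `ℚ_[p i]`-points. -/
def Closure {K : Type} [Field K] (f : MvPolynomial (Fin 2) K) {ι : Type} {p : ι → ℕ}
    [∀ i, Fact (p i).Prime] (σ : ∀ i, K →+* ℚ_[p i]) : Set (∀ i, (Fin 2 → ℚ_[p i]) × ℚ_[p i]) :=
  closure {S | ∃ P, OnCover f P ∧ S = fun i => image (σ i) P}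

/-- The closure of the `K`-points in the product of the set of the real points and of the sets of
the `ℚ_[p i]`-points. -/
def ClosureReal {K : Type} [Field K] (f : MvPolynomial (Fin 2) K) {ι : Type} {p : ι → ℕ}
    [∀ i, Fact (p i).Prime] (σ : ∀ i, K →+* ℚ_[p i]) (τ : K →+* ℝ) :
    Set (((Fin 2 → ℝ) × ℝ) × ∀ i, (Fin 2 → ℚ_[p i]) × ℚ_[p i]) :=
  closure {S | ∃ P, OnCover f P ∧ S = (image τ P, fun i => image (σ i) P)}

/-- The closure is a neighbourhood of the `K`-point `P` in the product of the sets of the local
points. -/
def OpenAt {K : Type} [Field K] (f : MvPolynomial (Fin 2) K) {ι : Type} {p : ι → ℕ}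
    [∀ i, Fact (p i).Prime] (σ : ∀ i, K →+* ℚ_[p i]) (P : (Fin 2 → K) × K) : Prop :=
  ∃ U ∈ nhds (fun v => image (σ v) P), ∀ S ∈ U, (∀ v, OnCover (map (σ v) f) (S v)) →
    S ∈ Closure f σ

/-- The same with a real place. -/
def OpenAtReal {K : Type} [Field K] (f : MvPolynomial (Fin 2) K) {ι : Type} {p : ι → ℕ}
    [∀ i, Fact (p i).Prime] (σ : ∀ i, K →+* ℚ_[p i]) (τ : K →+* ℝ) (P : (Fin 2 → K) × K) : Prop :=
  ∃ U ∈ nhds (image τ P, fun v => image (σ v) P), ∀ S ∈ U, OnCover (map τ f) S.1 →
    (∀ v, OnCover (map (σ v) f) (S.2 v)) → S ∈ ClosureReal f σ τ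

/-- **Local points of K3 double covers of `ℙ¹ × ℙ¹` are limits of rational points over quadratic
extensions at which the closure of the rational points is open.** -/
theorem result (K : Type) [Field K] [NumberField K] (F : MvPolynomial (Fin 2 × Fin 2) K)
    (hF : IsForm F) (hs : Smooth F) (ε : Fin 2 → Fin 2)
    -- a finite set of places
    (ι : Type) [Finite ι] [Nonempty ι] (p : ι → ℕ) [∀ v, Fact (p v).Prime]
    (hp : Function.Injective p) (σ : ∀ v, K →+* ℚ_[p v])
    -- local points off the branch curve
    (S : ∀ v, (Fin 2 → ℚ_[p v]) × ℚ_[p v]) (hS : ∀ v, OnCover (map (σ v) (chart F ε)) (S v))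
    (hS0 : ∀ v, (S v).2 ≠ 0) (η : ℝ) (hη : 0 < η) :
    (∃ (L : Type) (_ : Field L) (_ : NumberField L) (_ : Algebra K L) (σ' : ∀ v, L →+* ℚ_[p v])
      (P : (Fin 2 → L) × L),
      -- `L` is quadratic and the places split in `L`
      Module.finrank K L = 2 ∧ (∀ v, (σ' v).comp (algebraMap K L) = σ v) ∧
      -- `P` is an `L`-point near the given local points
      OnCover (map (algebraMap K L) (chart F ε)) P ∧ (∀ v, dist (S v) (image (σ' v) P) < η) ∧
      -- the closure of the set of the `L`-points is a neighbourhood of `P`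
      OpenAt (map (algebraMap K L) (chart F ε)) σ' P) ∧
    -- the same with a real place
    ∀ (τ : K →+* ℝ) (R : (Fin 2 → ℝ) × ℝ), OnCover (map τ (chart F ε)) R → R.2 ≠ 0 →
      ∃ (L : Type) (_ : Field L) (_ : NumberField L) (_ : Algebra K L) (σ' : ∀ v, L →+* ℚ_[p v])
        (τ' : L →+* ℝ) (P : (Fin 2 → L) × L),
        Module.finrank K L = 2 ∧ (∀ v, (σ' v).comp (algebraMap K L) = σ v) ∧
        τ'.comp (algebraMap K L) = τ ∧ OnCover (map (algebraMap K L) (chart F ε)) P ∧
        (∀ v, dist (S v) (image (σ' v) P) < η) ∧ dist R (image τ' P) < η ∧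
        OpenAtReal (map (algebraMap K L) (chart F ε)) σ' τ' P := by
  obtain ⟨h1, h2, -⟩ := Pool.Agent.Q182.TT.CHF.chf K 2 F hF ε
  refine ⟨?_, fun τ R hR hR0 => ?_⟩
  · obtain ⟨L, iL, iN, iA, σ', P, h3, h4, h5, -, h7, h8⟩ :=
      Pool.Agent.U899.QA.quad_p K (Pool.Agent.Q35.TT.ch F ε) h1 (h2 hs) ι p hp σ S hS hS0 hη
    exact ⟨L, iL, iN, iA, σ', P, h3, h4, h5, h7, h8⟩
  · obtain ⟨L, iL, iN, iA, σ', τ', P, h3, h4, h4', h5, -, h7, h7', h8⟩ :=
      Pool.Agent.U899.QA.quad_r K (Pool.Agent.Q35.TT.ch F ε) h1 (h2 hs) ι p hp σ τ R hR hR0 S hS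
        hS0 hη
    exact ⟨L, iL, iN, iA, σ', τ', P, h3, h4, h4', h5, h7, h7', h8⟩

end Pool.Agent.Results.MP_ed3816_nt.QuadraticApproximation
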